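import Pool.Agent.helper64.PB.SpecA

/-!
# pb:CMP
-/

set_option autoImplicit false

open Finset

namespace Pool.Agent.PB

lemma CMP_joint (hAPP : APP_stmt) (G : Set Gate) (m n : ℕ) (φ : Fin m → BF n) (t : Fin m → ℕ)
    (h : ∀ i, Size G (φ i) (t i)) (I : Finset (Fin m)) :
    ∃ l : List (BF n), Prog G n l ∧ l.length ≤ ∑ i ∈ I, t i ∧ ∀ i ∈ I, Av l (φ i) := by
  classical
  induction I using Finset.induction_on with
  | empty => exact ⟨[], Prog.nil, by simp, fun i hi => absurd hi (Finset.notMem_empty i)⟩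
  | insert a I ha ih =>
    obtain ⟨l, h1, h2, h3⟩ := ih
    obtain ⟨l', h4, h5, h6⟩ := h a
    refine ⟨l ++ l', hAPP G n l l' h1 h4, ?_, ?_⟩
    · rw [List.length_append, Finset.sum_insert ha]
      omega
    · intro i hi
      rcases Finset.mem_insert.mp hi with rfl | hi
      · rcases h6 with h6 | h6
        · exact Or.inl (List.mem_append.mpr (Or.inr h6))
        · exact Or.inr h6
      · rcases h3 i hi with h6 | h6
        · exact Or.inl (List.mem_append.mpr (Or.inl h6))
        · exact Or.inr h6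

theorem CMP (hAPP : APP_stmt) (hSUB : SUB_stmt) : CMP_stmt := by
  intro G m n F φ s t hF h
  obtain ⟨l, h1, h2, h3⟩ := CMP_joint hAPP G m n φ t h Finset.univ
  obtain ⟨l', h4, h5, h6⟩ := hSUB G m n F s l φ hF h1 (fun i => h3 i (Finset.mem_univ i))
  refine ⟨l' ++ l, h4, ?_, h6⟩
  rw [List.length_append]
  omega

end Pool.Agent.PB
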