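import Pool.Agent.helper64.PB.SpecL

/-!
# pb:FWD
-/

set_option autoImplicit false

namespace Pool.Agent.PB

lemma FWD_mono {G : Set Gate} {n : ℕ} {f : BF n} {s t : ℕ} (h : Size G f s) (hst : s ≤ t) :
    Size G f t := by
  obtain ⟨l, h1, h2, h3⟩ := h
  exact ⟨l, h1, h2.trans hst, h3⟩

theorem FWD (hETH : ETH_stmt) (hPOL : POL_stmt) : FWD_stmt := by
  intro G A hT hW hS hP
  obtain ⟨C, hC⟩ := hETH G hT hW
  obtain ⟨c, hc⟩ := hP
  obtain ⟨d, hd⟩ := hPOL C c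
  refine ⟨d, fun n hn => ?_⟩
  refine FWD_mono (hC n hn (A n) (hS n hn) _ (hc n)) ?_
  refine le_trans (Nat.mul_le_mul_left C ?_) (hd n)
  have h1 : n ^ c ≤ (n + 2) ^ c := Nat.pow_le_pow_left (by omega) c
  omega

end Pool.Agent.PB
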