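import Pool.Agent.helper64.PB.SpecF

/-!
# pb:GS3
-/

set_option autoImplicit false

open Finset

namespace Pool.Agent.PB

lemma GS3_mono {G : Set Gate} {n : ℕ} {f : BF n} {s t : ℕ} (h : Size G f s) (hst : s ≤ t) :
    Size G f t := by
  obtain ⟨l, h1, h2, h3⟩ := h
  exact ⟨l, h1, h2.trans hst, h3⟩

/-- the substitution -/
def GS3_phi {N : ℕ} (A : Fin (N + 1) → Fin N → Bool) (b : Fin (N + 1) → Bool)
    (k : Fin ((N + 1) * (N + 1))) : BF N :=
  Fin.lastCases (motive := fun _ => BF N) (fun _ => b (finProdFinEquiv.symm k).1)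
    (fun j x => A (finProdFinEquiv.symm k).1 j && x j) (finProdFinEquiv.symm k).2

lemma GS3_phi_cast {N : ℕ} (A : Fin (N + 1) → Fin N → Bool) (b : Fin (N + 1) → Bool)
    (i : Fin (N + 1)) (j : Fin N) (x : Fin N → Bool) :
    GS3_phi A b (finProdFinEquiv (i, j.castSucc)) x = (A i j && x j) := by
  unfold GS3_phi
  rw [Equiv.symm_apply_apply]
  simp

lemma GS3_phi_last {N : ℕ} (A : Fin (N + 1) → Fin N → Bool) (b : Fin (N + 1) → Bool)
    (i : Fin (N + 1)) (x : Fin N → Bool) :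
    GS3_phi A b (finProdFinEquiv (i, Fin.last N)) x = b i := by
  unfold GS3_phi
  rw [Equiv.symm_apply_apply]
  simp

lemma GS3_phi_form {N : ℕ} (A : Fin (N + 1) → Fin N → Bool) (b : Fin (N + 1) → Bool)
    (k : Fin ((N + 1) * (N + 1))) :
    (∃ j, GS3_phi A b k = fun x => x j) ∨ ∃ v, GS3_phi A b k = fC v N := by
  obtain ⟨⟨i, j⟩, rfl⟩ := finProdFinEquiv.surjective k
  induction j using Fin.lastCases with
  | last =>
    right
    refine ⟨b i, ?_⟩
    funext x
    rw [GS3_phi_last]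
    rfl
  | cast j =>
    cases hA : A i j with
    | false =>
      right
      refine ⟨false, ?_⟩
      funext x
      rw [GS3_phi_cast, hA]
      rfl
    | true =>
      left
      refine ⟨j, ?_⟩
      funext x
      rw [GS3_phi_cast, hA]
      rfl

theorem GS3 (hGS2 : GS2_stmt) (hLAF : LAF_stmt) (hRST : RST_stmt) (hSUB : SUB_stmt) : GS3_stmt := by
  classical
  obtain ⟨C, hC⟩ := hGS2
  refine ⟨C + 2, fun N W hW => ?_⟩
  obtain ⟨A, b, hAb⟩ := hLAF N W hW
  have h1 := (hRST ((N + 1) * (N + 1)) N (solvF (N + 1) N) _ (GS3_phi A b)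
    (GS3_phi_form A b)).2 (hC (N + 1) N)
  have h3 := GS3_mono h1 (t := (C + 2) * (N + 2) ^ 4) (by
    have e1 : (N + 1) ^ 2 ≤ (N + 2) ^ 2 := Nat.pow_le_pow_left (by omega) 2
    have e2 : C * (N + 1 + 1) ^ 2 * (N + 1) ^ 2 ≤ C * (N + 2) ^ 2 * (N + 2) ^ 2 :=
      Nat.mul_le_mul_left _ e1
    have e3 : 1 ≤ (N + 2) ^ 4 := Nat.one_le_pow _ _ (by omega)
    have e4 : C * (N + 2) ^ 2 * (N + 2) ^ 2 = C * (N + 2) ^ 4 := by ring
    calc C * (N + 1 + 1) ^ 2 * (N + 1) ^ 2 + 2 ≤ C * (N + 2) ^ 4 + 2 * (N + 2) ^ 4 := by omega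
      _ = (C + 2) * (N + 2) ^ 4 := by ring)
  have h5 : ∀ f : BF N, (f = fun x => solvF (N + 1) N fun i => GS3_phi A b i x) →
      Size std f ((C + 2) * (N + 2) ^ 4) := by
    rintro f rfl
    exact h3
  refine h5 _ ?_
  funext x
  unfold solvF
  apply decide_eq_decide.mpr
  unfold Solv
  simp only [GS3_phi_cast, GS3_phi_last]
  constructor
  · rintro ⟨v, hv, hvx⟩
    refine ⟨v, fun i => ?_⟩
    rw [← (hAb v).mp hv i]
    apply congrArg
    funext j
    cases hvj : v j with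
    | false => simp
    | true => simp [hvx j hvj]
  · rintro ⟨v, hv⟩
    refine ⟨fun j => x j && v j, ?_, ?_⟩
    · rw [hAb]
      intro i
      rw [← hv i]
      apply congrArg
      funext j
      rw [Bool.and_assoc]
    · intro i hi
      exact (Bool.and_eq_true_iff.mp hi).1

end Pool.Agent.PB
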