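import Pool.Agent.helper64.PB.SpecW

/-!
# pb:UPC
-/

set_option autoImplicit false

open Finset

namespace Pool.Agent.PB

/-- the up-closure -/
def UPC_up {r : ℕ} (g : BF r) : BF r :=
  fun x => decide (∃ y : Fin r → Bool, (∀ i, y i = true → x i = true) ∧ g y = true)

lemma UPC_up_iff {r : ℕ} (g : BF r) (x : Fin r → Bool) :
    UPC_up g x = true ↔ ∃ y : Fin r → Bool, (∀ i, y i = true → x i = true) ∧ g y = true := by
  unfold UPC_up
  exact decide_eq_true_iff

lemma UPC_up_mono {r : ℕ} (g : BF r) : Mono (UPC_up g) := by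
  intro x y hxy hx
  rw [UPC_up_iff] at hx ⊢
  obtain ⟨z, hz, hg⟩ := hx
  exact ⟨z, fun i hi => hxy i (hz i hi), hg⟩

/-- the closed gates -/
def UPC_G (G : Set Gate) : Set Gate := (fun g : Gate => (⟨g.1, UPC_up g.2⟩ : Gate)) '' G

lemma UPC_prog (G : Set Gate) (k : ℕ) (hI : ∀ g ∈ G, Inter k g.2) (n : ℕ) (l : List (BF n))
    (hl : Prog G n l) :
    ∃ l' : List (BF n), Prog (UPC_G G) n l' ∧ l'.length = l.length ∧
      ∀ u ∈ l, ∃ u' ∈ l', Mono u' ∧ Inter k u' ∧ ∀ x, u x = true → u' x = true := by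
  induction hl with
  | nil => exact ⟨[], Prog.nil, rfl, fun u hu => absurd hu (List.not_mem_nil)⟩
  | step l g a hl hg ha ih =>
    obtain ⟨l', h1, h2, h3⟩ := ih
    have key : ∀ i, ∃ b : BF n, (b ∈ l' ∨ ∃ j, b = fun x => x j) ∧ Mono b ∧ Inter k b ∧
        ∀ x, a i x = true → b x = true := by
      intro i
      rcases ha i with h | ⟨j, h⟩
      · obtain ⟨u', h4, h5, h6, h7⟩ := h3 (a i) h
        exact ⟨u', Or.inl h4, h5, h6, h7⟩
      · refine ⟨a i, Or.inr ⟨j, h⟩, ?_, ?_, fun x hx => hx⟩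
        · intro x y hxy hx
          rw [h] at hx ⊢
          exact hxy j hx
        · intro z hz
          refine ⟨j, fun m => ?_⟩
          have := hz m
          rw [h] at this
          exact this
    choose b hb1 hb2 hb3 hb4 using key
    refine ⟨(fun x => (⟨g.1, UPC_up g.2⟩ : Gate).2 fun i => b i x) :: l', ?_, ?_, ?_⟩
    · exact Prog.step l' (⟨g.1, UPC_up g.2⟩ : Gate) b h1 ⟨g, hg, rfl⟩ hb1
    · simp [h2]
    · intro u hu
      rcases List.mem_cons.mp hu with hu | hu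
      · refine ⟨_, List.mem_cons_self, ?_, ?_, ?_⟩
        · intro x y hxy hx
          exact UPC_up_mono g.2 _ _ (fun i hi => hb2 i x y hxy hi) hx
        · intro z hz
          have h4 : ∀ m, ∃ y : Fin g.1 → Bool, (∀ i, y i = true → b i (z m) = true) ∧
              g.2 y = true := fun m => (UPC_up_iff g.2 _).mp (hz m)
          choose y hy1 hy2 using h4
          obtain ⟨i, hi⟩ := hI g hg y hy2
          exact hb3 i z fun m => hy1 m i (hi m)
        · intro x hx
          rw [hu] at hx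
          exact (UPC_up_iff g.2 _).mpr ⟨fun i => a i x, fun i hi => hb4 i x hi, hx⟩
      · obtain ⟨u', h4, h5⟩ := h3 u hu
        exact ⟨u', List.mem_cons_of_mem _ h4, h5⟩

theorem UPC (hMTR : MTR_stmt) : UPC_stmt := by
  intro G k hG hk hI
  obtain ⟨c, hc⟩ := hMTR (UPC_G G) (hG.image _) (by
    rintro _ ⟨g, hg, rfl⟩
    exact UPC_up_mono g.2)
  refine ⟨c, fun n f s hf => ?_⟩
  obtain ⟨l, hl, hs, hf⟩ := hf
  rcases hf with hf | ⟨j, hf⟩
  · obtain ⟨l', h1, h2, h3⟩ := UPC_prog G k hI n l hl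
    obtain ⟨u, h4, h5, h6, h7⟩ := h3 f hf
    exact ⟨u, h5, h6, h7, hc n u s ⟨l', h1, h2 ▸ hs, Or.inl h4⟩⟩
  · refine ⟨f, ?_, ?_, fun x hx => hx, ⟨[], Prog.nil, Nat.zero_le _, Or.inr ⟨j, hf⟩⟩⟩
    · intro x y hxy hx
      rw [hf] at hx ⊢
      exact hxy j hx
    · intro z hz
      refine ⟨j, fun m => ?_⟩
      have := hz m
      rw [hf] at this
      exact this

end Pool.Agent.PB
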